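import Mathlib

open Set

namespace Pool.Agent.Results.MP_405999_gt.LocStrongSober

universe u

/-- a filter on `L`: nonempty, upwards closed, any two members have a lower bound in it -/
def IsFilt {L : Type u} [Order.Frame L] (F : Set L) : Prop :=
  F.Nonempty ∧ (∀ a b, a ≤ b → a ∈ F → b ∈ F) ∧ ∀ a ∈ F, ∀ b ∈ F, ∃ c ∈ F, c ≤ a ∧ c ≤ b

/-- Scott-open: a (nonempty) directed family with supremum in `F` has a member in `F` -/
def ScottOpen {L : Type u} [Order.Frame L] (F : Set L) : Prop :=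
  ∀ D : Set L, D.Nonempty → DirectedOn (· ≤ ·) D → sSup D ∈ F → ∃ d ∈ D, d ∈ F

/-- the join of two filters -/
def join {L : Type u} [Order.Frame L] (F G : Set L) : Set L :=
  {w | ∃ a ∈ F, ∃ b ∈ G, w = a ⊓ b}

/-- locally temperate: the join of two Scott-open filters is Scott-open -/
def LocallyTemperate (L : Type u) [Order.Frame L] : Prop :=
  ∀ F G : Set L, IsFilt F → IsFilt G → ScottOpen F → ScottOpen G → ScottOpen (join F G)

/-- completely prime filter -/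
def CompletelyPrime {L : Type u} [Order.Frame L] (F : Set L) : Prop :=
  IsFilt F ∧ ∀ S : Set L, sSup S ∈ F → ∃ a ∈ S, a ∈ F

/-- the points of `L` -/
structure Pt (L : Type u) [Order.Frame L] where
  carrier : Set L
  prime : CompletelyPrime carrier

/-- the set `O_u` -/
def O {L : Type u} [Order.Frame L] (a : L) : Set (Pt L) := {x | a ∈ x.carrier}

variable {L : Type u} [Order.Frame L]

lemma IsFilt.top {F : Set L} (h : IsFilt F) : ⊤ ∈ F := by
  obtain ⟨a, ha⟩ := h.1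
  exact h.2.1 a ⊤ le_top ha

lemma IsFilt.inf {F : Set L} (h : IsFilt F) {a b : L} (ha : a ∈ F) (hb : b ∈ F) : a ⊓ b ∈ F := by
  obtain ⟨c, hc, h1, h2⟩ := h.2.2 a ha b hb
  exact h.2.1 c _ (le_inf h1 h2) hc

lemma O_top : O (⊤ : L) = univ := by
  ext x; simp [O, x.prime.1.top]

lemma O_inf (a b : L) : O (a ⊓ b) = O a ∩ O b := by
  ext x
  simp only [O, mem_ofPred_eq, mem_inter_iff]
  exact ⟨fun h => ⟨x.prime.1.2.1 _ _ inf_le_left h, x.prime.1.2.1 _ _ inf_le_right h⟩,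
    fun h => x.prime.1.inf h.1 h.2⟩

lemma O_sSup (S : Set L) : O (sSup S) = ⋃ a ∈ S, O a := by
  ext x
  simp only [O, mem_ofPred_eq, mem_iUnion, exists_prop]
  exact ⟨fun h => x.prime.2 S h, fun ⟨a, ha, h⟩ => x.prime.1.2.1 _ _ (le_sSup ha) h⟩

/-- the topology of the space of points: the open sets are exactly the sets `O_u` -/
instance ptTop (L : Type u) [Order.Frame L] : TopologicalSpace (Pt L) where
  IsOpen U := ∃ a : L, U = O a
  isOpen_univ := ⟨⊤, O_top.symm⟩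
  isOpen_inter := by
    rintro _ _ ⟨a, rfl⟩ ⟨b, rfl⟩
    exact ⟨a ⊓ b, (O_inf a b).symm⟩
  isOpen_sUnion := by
    intro s hs
    refine ⟨sSup {a | O a ∈ s}, ?_⟩
    rw [O_sSup]
    ext x
    simp only [mem_sUnion, mem_ofPred_eq, mem_iUnion, exists_prop]
    constructor
    · rintro ⟨t, ht, hx⟩
      obtain ⟨a, rfl⟩ := hs t ht
      exact ⟨a, ht, hx⟩
    · rintro ⟨a, ha, hx⟩
      exact ⟨_, ha, hx⟩

/-- the limits of an ultrafilter: points all of whose open neighbourhoods lie in it -/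
def limits {X : Type u} [TopologicalSpace X] (𝒰 : Ultrafilter X) : Set X :=
  {x | ∀ V : Set X, IsOpen V → x ∈ V → V ∈ 𝒰}

/-- locally strongly sober -/
def LocallyStronglySober (X : Type u) [TopologicalSpace X] : Prop :=
  ∀ 𝒰 : Ultrafilter X, limits 𝒰 = ∅ ∨ ∃! x : X, limits 𝒰 = closure {x}

lemma isOpen_iff (U : Set (Pt L)) : IsOpen U ↔ ∃ a : L, U = O a := Iff.rfl

lemma mem_limits (𝒰 : Ultrafilter (Pt L)) (x : Pt L) :
    x ∈ limits 𝒰 ↔ ∀ a ∈ x.carrier, O a ∈ 𝒰 := by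
  constructor
  · intro h a ha
    exact h _ ⟨a, rfl⟩ ha
  · rintro h _ ⟨a, rfl⟩ ha
    exact h a ha

lemma mem_closure_pt (x p : Pt L) : x ∈ closure {p} ↔ x.carrier ⊆ p.carrier := by
  rw [mem_closure_iff]
  constructor
  · intro h a ha
    obtain ⟨y, hy, hy'⟩ := h (O a) ⟨a, rfl⟩ ha
    rw [mem_singleton_iff] at hy'
    subst hy'
    exact hy
  · rintro h _ ⟨a, rfl⟩ ha
    exact ⟨p, h ha, rfl⟩

lemma O_sup (a b : L) : O (a ⊔ b) = O a ∪ O b := by
  rw [← sSup_pair, O_sSup]; simp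

lemma O_bot : O (⊥ : L) = ∅ := by
  rw [← sSup_empty, O_sSup]; simp

lemma O_mono {a b : L} (h : a ≤ b) : O a ⊆ O b := fun x hx => x.prime.1.2.1 _ _ h hx

lemma join_filt {F G : Set L} (hF : IsFilt F) (hG : IsFilt G) : IsFilt (join F G) := by
  refine ⟨⟨⊤, ⊤, hF.top, ⊤, hG.top, by simp⟩, ?_, ?_⟩
  · rintro _ c hc ⟨a, ha, b, hb, rfl⟩
    refine ⟨a ⊔ c, hF.2.1 _ _ le_sup_left ha, b ⊔ c, hG.2.1 _ _ le_sup_left hb, ?_⟩
    rw [← sup_inf_right, sup_eq_right.2 hc]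
  · rintro _ ⟨a, ha, b, hb, rfl⟩ _ ⟨c, hc, d, hd, rfl⟩
    refine ⟨(a ⊓ c) ⊓ (b ⊓ d), ⟨_, hF.inf ha hc, _, hG.inf hb hd, rfl⟩, ?_, ?_⟩
    · exact inf_le_inf inf_le_left inf_le_left
    · exact inf_le_inf inf_le_right inf_le_right

/-- a Scott-open filter missing `i` is contained in a point missing `i` -/
lemma exists_pt {H : Set L} (hH : IsFilt H) (hS : ScottOpen H) {i : L} (hi : i ∉ H) :
    ∃ p : Pt L, H ⊆ p.carrier ∧ i ∉ p.carrier := by
  obtain ⟨m, him, hm⟩ := zorn_le_nonempty₀ {m : L | m ∉ H} (by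
    intro c hc hchain y hy
    refine ⟨sSup c, ?_, fun z hz => le_sSup hz⟩
    intro hmem
    obtain ⟨d, hd, hdH⟩ := hS c ⟨y, hy⟩ hchain.directedOn hmem
    exact hc hd hdH) i hi
  have hmH : m ∉ H := hm.1
  have key : ∀ a, ¬ a ≤ m → m ⊔ a ∈ H := by
    intro a ha
    by_contra hn
    have := hm.2 (show m ⊔ a ∈ {m : L | m ∉ H} from hn) le_sup_left
    exact ha (le_sup_right.trans this)
  refine ⟨⟨{w | ¬ w ≤ m}, ⟨⟨⊤, ?_⟩, ?_, ?_⟩, ?_⟩, ?_, ?_⟩
  · intro h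
    exact hmH (hH.2.1 _ _ h hH.top)
  · intro a b hab ha hb
    exact ha (hab.trans hb)
  · intro a ha b hb
    refine ⟨a ⊓ b, ?_, inf_le_left, inf_le_right⟩
    intro hab
    have := hH.inf (key a ha) (key b hb)
    rw [← sup_inf_left, sup_eq_left.2 hab] at this
    exact hmH this
  · intro S hS'
    by_contra hn
    push Not at hn
    apply hS'
    refine sSup_le fun a ha => ?_
    have := hn a ha
    simpa using this
  · intro w hw hwm
    exact hmH (hH.2.1 _ _ hwm hw)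
  · intro h
    exact h him

theorem result : ∀ (L : Type u) [Order.Frame L], LocallyTemperate L →
    LocallyStronglySober (Pt L) := by
  intro L _ hL 𝒰
  rcases (limits 𝒰).eq_empty_or_nonempty with h | ⟨x₀, hx₀⟩
  · exact Or.inl h
  right
  let 𝓗 : Set (Set L) := {H | IsFilt H ∧ ScottOpen H ∧ ∀ a ∈ H, O a ∈ 𝒰}
  have hpt : ∀ x : Pt L, x ∈ limits 𝒰 → x.carrier ∈ 𝓗 := fun x hx =>
    ⟨x.prime.1, fun D _ _ hD => x.prime.2 D hD, (mem_limits 𝒰 x).1 hx⟩
  have hjoin : ∀ F ∈ 𝓗, ∀ G ∈ 𝓗, join F G ∈ 𝓗 := by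
    intro F hF G hG
    refine ⟨join_filt hF.1 hG.1, hL F G hF.1 hG.1 hF.2.1 hG.2.1, ?_⟩
    rintro _ ⟨a, ha, b, hb, rfl⟩
    rw [O_inf]
    exact Filter.inter_mem (hF.2.2 a ha) (hG.2.2 b hb)
  let H : Set L := ⋃₀ 𝓗
  have hHf : IsFilt H := by
    refine ⟨⟨⊤, _, hpt x₀ hx₀, x₀.prime.1.top⟩, ?_, ?_⟩
    · rintro a b hab ⟨F, hF, ha⟩
      exact ⟨F, hF, hF.1.2.1 _ _ hab ha⟩
    · rintro a ⟨F, hF, ha⟩ b ⟨G, hG, hb⟩
      exact ⟨a ⊓ b, ⟨_, hjoin F hF G hG, a, ha, b, hb, rfl⟩, inf_le_left, inf_le_right⟩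
  have hHs : ScottOpen H := by
    rintro D hne hD ⟨F, hF, hs⟩
    obtain ⟨d, hd, hdF⟩ := hF.2.1 D hne hD hs
    exact ⟨d, hd, F, hF, hdF⟩
  have hHU : ∀ a ∈ H, O a ∈ 𝒰 := by
    rintro a ⟨F, hF, ha⟩
    exact hF.2.2 a ha
  let I : Set L := {a | O a ∉ 𝒰}
  have hI : sSup I ∉ H := by
    intro h
    obtain ⟨d, hd, hdH⟩ := hHs I ⟨⊥, by
      show O (⊥ : L) ∉ 𝒰
      rw [O_bot]; exact 𝒰.empty_notMem⟩ (by
      intro a ha b hb
      refine ⟨a ⊔ b, ?_, le_sup_left, le_sup_right⟩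
      show O (a ⊔ b) ∉ 𝒰
      rw [O_sup, Ultrafilter.union_mem_iff]
      rintro (h | h)
      · exact ha h
      · exact hb h) h
    exact hd (hHU d hdH)
  obtain ⟨p, hHp, hp⟩ := exists_pt hHf hHs hI
  have hpU : ∀ a ∈ p.carrier, O a ∈ 𝒰 := by
    intro a ha
    by_contra hn
    exact hp (p.prime.1.2.1 _ _ (le_sSup (show a ∈ I from hn)) ha)
  have hlim : limits 𝒰 = closure {p} := by
    ext x
    rw [mem_closure_pt]
    constructor
    · intro hx a ha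
      exact hHp ⟨_, hpt x hx, ha⟩
    · intro hx
      rw [mem_limits]
      exact fun a ha => hpU a (hx ha)
  refine ⟨p, hlim, ?_⟩
  intro q hq
  have h1 : q.carrier ⊆ p.carrier := by
    rw [← mem_closure_pt, ← hlim, hq]; exact subset_closure rfl
  have h2 : p.carrier ⊆ q.carrier := by
    rw [← mem_closure_pt, ← hq, hlim]; exact subset_closure rfl
  have := Subset.antisymm h1 h2
  cases q; cases p; simp_all

end Pool.Agent.Results.MP_405999_gt.LocStrongSober
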